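import Pool.Agent.H83.G.Targets2

/-!
Theorem G (MP_ee74d2_an): modules SPK and PTW.
-/

set_option autoImplicit false

namespace Pool.Agent.H64.G

open MeasureTheory Set Pool.Agent.H83.G
open scoped ENNReal NNReal RealInnerProductSpace

variable {m : ℕ}

theorem continuous_kern {G : Z m → ℂ} (hG : TC G) :
    Continuous (fun p : Z m × Z m => e (ph p.1 p.2) * G p.2) := by
  have := hG.1.continuous
  unfold e ph
  fun_prop

theorem continuous_kern' {G : Z m → ℂ} (hG : TC G) (z : Z m) :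
    Continuous (fun ζ : Z m => e (ph z ζ) * G ζ) := by
  have := hG.1.continuous
  unfold e ph
  fun_prop

theorem integrable_kern {G : Z m → ℂ} (hG : TC G) (z : Z m) :
    Integrable (fun ζ : Z m => e (ph z ζ) * G ζ) := by
  refine (continuous_kern' hG z).integrable_of_hasCompactSupport ?_
  exact hG.2.mul_left

theorem measurable_TF {G : Z m → ℂ} (hG : TC G) : Measurable (TF G) := by
  have h := (continuous_kern hG).stronglyMeasurable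
  exact (h.integral_prod_right (ν := volume)).measurable

theorem TF_const_mul (c : ℂ) (G : Z m → ℂ) (z : Z m) :
    TF (fun ζ => c * G ζ) z = c * TF G z := by
  unfold TF
  rw [← integral_const_mul]
  refine integral_congr_ae (Filter.Eventually.of_forall fun ζ => ?_)
  simp only
  ring

theorem TF_sum {ι : Type} (s : Finset ι) (G : ι → Z m → ℂ) (hG : ∀ i ∈ s, TC (G i)) (z : Z m) :
    TF (fun ζ => ∑ i ∈ s, G i ζ) z = ∑ i ∈ s, TF (G i) z := by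
  unfold TF
  simp only [Finset.mul_sum]
  exact integral_finsetSum s fun i hi => integrable_kern (hG i hi) z

theorem Lo_sub (hLOA : T_LOA) (η : E m) (s : ℝ) (z z' : Z m) :
    Lo η s (z - z') = Lo η s z - Lo η s z' := (((hLOA m).1) η s z z').2.1

theorem wt_symm (N : ℕ) (x y : Z m) : wt N (x - y) = wt N (y - x) := by
  unfold wt
  rw [norm_sub_rev]

/-- local constancy for the pieces of caps -/
theorem lc_cap (hLCN : T_LCN) (hSCL : T_SCL) (hLOA : T_LOA) (hLOI : T_LOI) (m N : ℕ) (D : ℝ) :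
    ∃ C : ℝ≥0, ∀ (f : Z m → ℂ) (η : E m) (s : ℝ), 0 < s → TC f →
      (∀ ζ, f (Ld η s ζ) ≠ 0 → ‖ζ‖ ≤ D) → ∀ z,
      ‖TF f z‖ₑ ^ 2 ≤ C * ENNReal.ofReal (s ^ (m + 2)) *
        ∫⁻ z', ‖TF f z'‖ₑ ^ 2 * ENNReal.ofReal (wt N (Lo η s z - Lo η s z')) := by
  obtain ⟨C, hC⟩ := hLCN m N D 2 (by norm_num)
  refine ⟨C, ?_⟩
  intro f η s hs hf hD z
  obtain ⟨hTC, hTF⟩ := hSCL m η s f hs hf
  set g : Z m → ℂ := fun ζ => f (Ld η s ζ) with hg
  have h1 := hC g hTC hD (Lo η s z)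
  simp only [ENNReal.rpow_two] at h1
  have hσ : ∀ w : Z m, ‖TF f w‖ₑ ^ 2 = ENNReal.ofReal (s ^ (m + 2)) ^ 2 * ‖TF g (Lo η s w)‖ₑ ^ 2 := by
    intro w
    rw [hTF w, enorm_mul, mul_pow]
    congr 2
    rw [← ofReal_norm, Complex.norm_real, Real.norm_of_nonneg (by positivity)]
  have hI := (hLOI m η s hs).1 (fun x' => ‖TF g x'‖ₑ ^ 2 * ENNReal.ofReal (wt N (Lo η s z - x')))
  have hinv : ENNReal.ofReal (s ^ (m + 2)) * ENNReal.ofReal ((s⁻¹) ^ (m + 2)) = 1 := by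
    rw [← ENNReal.ofReal_mul (by positivity), ← mul_pow, mul_inv_cancel₀ hs.ne', one_pow,
      ENNReal.ofReal_one]
  have hI2 : ∫⁻ x', ‖TF g x'‖ₑ ^ 2 * ENNReal.ofReal (wt N (Lo η s z - x')) =
      ENNReal.ofReal (s ^ (m + 2)) *
        ∫⁻ z', ‖TF g (Lo η s z')‖ₑ ^ 2 * ENNReal.ofReal (wt N (Lo η s z - Lo η s z')) := by
    rw [hI, ← mul_assoc, hinv, one_mul]
  calc ‖TF f z‖ₑ ^ 2 = ENNReal.ofReal (s ^ (m + 2)) ^ 2 * ‖TF g (Lo η s z)‖ₑ ^ 2 := hσ z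
    _ ≤ ENNReal.ofReal (s ^ (m + 2)) ^ 2 *
        (C * ∫⁻ x', ‖TF g x'‖ₑ ^ 2 * ENNReal.ofReal (wt N (Lo η s z - x'))) :=
        mul_le_mul_right h1 _
    _ = C * ENNReal.ofReal (s ^ (m + 2)) * (ENNReal.ofReal (s ^ (m + 2)) ^ 2 *
        ∫⁻ z', ‖TF g (Lo η s z')‖ₑ ^ 2 * ENNReal.ofReal (wt N (Lo η s z - Lo η s z'))) := by
        rw [hI2]
        ring
    _ = C * ENNReal.ofReal (s ^ (m + 2)) * ∫⁻ z', ENNReal.ofReal (s ^ (m + 2)) ^ 2 *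
        (‖TF g (Lo η s z')‖ₑ ^ 2 * ENNReal.ofReal (wt N (Lo η s z - Lo η s z'))) := by
        rw [lintegral_const_mul' _ _ (ENNReal.pow_ne_top ENNReal.ofReal_ne_top)]
    _ = _ := by
        congr 1
        refine lintegral_congr fun z' => ?_
        rw [hσ z']
        ring

/-- supports of the pieces in rescaled coordinates -/
theorem supp_cap (hLOA : T_LOA) {β : E m → ℂ} (hβ : ∀ x, 1 ≤ ‖x‖ → β x = 0) {κ R : ℝ}
    {G : Z m → ℂ} (_hκ : 0 ≤ κ) (hκ' : κ ≤ 1 / 2) (hR : 0 < R)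
    (hG : ∀ ζ, G ζ ≠ 0 → ζ ∈ Rg m κ R⁻¹) (η : E m) {s : ℝ} (hs : 0 < s) (hRs : 1 ≤ R * s ^ 2) :
    ∀ ζ, cp β η s (Ld η s ζ) * G (Ld η s ζ) ≠ 0 → ‖ζ‖ ≤ 20 := by
  intro ζ hζ
  have h1 := left_ne_zero_of_mul hζ
  obtain ⟨h2a, h2b, h2c, h2d⟩ := hG _ (right_ne_zero_of_mul hζ)
  have ha : (Ld η s ζ).1 = ζ.1 := rfl
  rw [ha] at h2a h2b
  have ha0 : 0 < ζ.1 := by linarith
  obtain ⟨-, h3, h4⟩ := (hLOA m).2.2.2.2.2 η s ζ ha0.ne'
  rw [h4] at h2d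
  have h5 : ‖ζ.1⁻¹ • ζ.2.1‖ < 1 := by
    by_contra hcon
    push Not at hcon
    apply h1
    unfold cp
    rw [h3, smul_smul, inv_mul_cancel₀ hs.ne', one_smul]
    exact hβ _ hcon
  rw [norm_smul, norm_inv, Real.norm_of_nonneg ha0.le, inv_mul_lt_iff₀ ha0, mul_one] at h5
  have h6 : |ζ.2.2 - ‖ζ.2.1‖ ^ 2 / ζ.1| ≤ 3 / 2 := by
    rw [abs_mul, abs_of_nonneg (sq_nonneg s)] at h2d
    have h7 : s ^ 2 * |ζ.2.2 - ‖ζ.2.1‖ ^ 2 / ζ.1| ≤ 3 / 2 * R⁻¹ := by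
      refine h2d.trans ?_
      have : 0 < R⁻¹ := inv_pos.2 hR
      nlinarith
    have h8 : R * (s ^ 2 * |ζ.2.2 - ‖ζ.2.1‖ ^ 2 / ζ.1|) ≤ 3 / 2 := by
      calc R * (s ^ 2 * |ζ.2.2 - ‖ζ.2.1‖ ^ 2 / ζ.1|) ≤ R * (3 / 2 * R⁻¹) := by gcongr
        _ = 3 / 2 := by field_simp
    calc |ζ.2.2 - ‖ζ.2.1‖ ^ 2 / ζ.1| = 1 * |ζ.2.2 - ‖ζ.2.1‖ ^ 2 / ζ.1| := (one_mul _).symm
      _ ≤ (R * s ^ 2) * |ζ.2.2 - ‖ζ.2.1‖ ^ 2 / ζ.1| := by gcongr
      _ ≤ 3 / 2 := by rw [mul_assoc]; exact h8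
  have h9 : ‖ζ.2.1‖ ^ 2 / ζ.1 ≤ 9 / 2 := by
    rw [div_le_iff₀ ha0]
    nlinarith [norm_nonneg ζ.2.1]
  have h10 : 0 ≤ ‖ζ.2.1‖ ^ 2 / ζ.1 := by positivity
  obtain ⟨h11, h12⟩ := abs_le.1 h6
  rw [Prod.norm_def, Prod.norm_def]
  refine max_le ?_ (max_le ?_ ?_)
  · rw [Real.norm_of_nonneg ha0.le]
    linarith
  · linarith
  · rw [Real.norm_eq_abs, abs_le]
    constructor <;> linarith

theorem sq_le_of_enorm {w : ℂ} {B : ℝ} (hB : 0 ≤ B) (h : ‖w‖ₑ ^ 2 ≤ ENNReal.ofReal (B ^ 2)) :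
    ‖w‖ ≤ B := by
  rw [← ofReal_norm, ← ENNReal.ofReal_pow (norm_nonneg _),
    ENNReal.ofReal_le_ofReal_iff (by positivity)] at h
  exact le_of_sq_le_sq h hB
where
  le_of_sq_le_sq {a b : ℝ} (h : a ^ 2 ≤ b ^ 2) (hb : 0 ≤ b) : a ≤ b := by
    nlinarith [abs_nonneg a, abs_le_of_sq_le_sq h hb, le_abs_self a]

/-- sup bound for the pieces at all scales -/
theorem sup_cap (hLCN : T_LCN) (hSCL : T_SCL) (hLOA : T_LOA) (hLOI : T_LOI) (hPUB : T_PUB)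
    (hAVG : T_AVG) (hCPS : T_CPS) (m L : ℕ) (β : E m → ℂ) (hβ : IsPU β) :
    ∃ C : ℝ, 0 < C ∧ ∀ (κ R A : ℝ) (G : Z m → ℂ), 0 ≤ κ → κ ≤ 1 / 2 → 1 ≤ R → 0 < A →
      Cls L κ R A G → ∀ (η : E m) (s : ℝ), 0 < s → s ≤ 1 → 1 ≤ R * s ^ 2 →
      ∀ z, ‖TP β η s G z‖ ≤ C * A * (R * s ^ 2) ^ ((m : ℝ) / 2) := by
  obtain ⟨Cb, hCb, hBp⟩ := hPUB m L β hβ
  obtain ⟨C1, hC1⟩ := lc_cap hLCN hSCL hLOA hLOI m (m + 3) 20
  obtain ⟨C2, hC2⟩ := hAVG m (m + 3) le_rfl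
  refine ⟨Real.sqrt (C1 * C2 * Cb ^ 2) + 1, by positivity, ?_⟩
  intro κ R A G hκ hκ' hR hA hG η s hs hs1 hRs z
  obtain ⟨hTC, hRg, hcls⟩ := hG
  have hsup : ∀ ζ, G ζ ≠ 0 → 1 / 4 ≤ ζ.1 := fun ζ hζ => by
    have := (hRg ζ hζ).1
    linarith
  have hf : TC (fun ζ => cp β η s ζ * G ζ) := hCPS m β η s G hβ.1 hs hTC hsup
  have h1 := hC1 (fun ζ => cp β η s ζ * G ζ) η s hs hf
    (supp_cap hLOA hβ.2.1 hκ hκ' (by linarith) hRg η hs hRs) z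
  have hX : 0 ≤ R * s ^ 2 := by linarith
  -- the class
  have h2 : ∀ z₁, ∫⁻ z in pl η s 1 z₁, ‖TP β η s G z‖ₑ ^ 2 ≤
      ENNReal.ofReal (Cb ^ 2 * (A ^ 2 * (R * s ^ 2) ^ m * (s⁻¹) ^ (m + 2))) := by
    intro z₁
    have h3 := hcls _ hBp η s 1 z₁ hs hs1 le_rfl hRs
    have h4 : ∀ z, ‖TP (fun x => ((Cb⁻¹ : ℝ) : ℂ) * β x) η s G z‖ₑ ^ 2 =
        ENNReal.ofReal ((Cb⁻¹) ^ 2) * ‖TP β η s G z‖ₑ ^ 2 := by
      intro z
      have h5 : TP (fun x => ((Cb⁻¹ : ℝ) : ℂ) * β x) η s G z =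
          ((Cb⁻¹ : ℝ) : ℂ) * TP β η s G z := by
        unfold TP
        rw [← TF_const_mul]
        congr 1
        funext ζ
        simp only [cp, mul_assoc]
      rw [h5, enorm_mul, mul_pow, ENNReal.ofReal_pow (by positivity), ← ofReal_norm
        (((Cb⁻¹ : ℝ) : ℂ)), Complex.norm_real, Real.norm_of_nonneg (by positivity)]
    simp only [h4] at h3
    rw [lintegral_const_mul' _ _ ENNReal.ofReal_ne_top, div_one, one_div] at h3
    have h6 : ENNReal.ofReal (Cb ^ 2) * ENNReal.ofReal ((Cb⁻¹) ^ 2) = 1 := by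
      rw [← ENNReal.ofReal_mul (by positivity), ← mul_pow, mul_inv_cancel₀ (by positivity),
        one_pow, ENNReal.ofReal_one]
    calc ∫⁻ z in pl η s 1 z₁, ‖TP β η s G z‖ₑ ^ 2 =
          ENNReal.ofReal (Cb ^ 2) * (ENNReal.ofReal ((Cb⁻¹) ^ 2) *
            ∫⁻ z in pl η s 1 z₁, ‖TP β η s G z‖ₑ ^ 2) := by rw [← mul_assoc, h6, one_mul]
      _ ≤ ENNReal.ofReal (Cb ^ 2) * ENNReal.ofReal (A ^ 2 * (R * s ^ 2) ^ m * (s⁻¹) ^ (m + 2)) :=
          mul_le_mul_right h3 _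
      _ = _ := by rw [← ENNReal.ofReal_mul (by positivity)]
  have hmeas : Measurable (fun z => ‖TP β η s G z‖ₑ ^ 2) := by
    have := measurable_TF hf
    exact (this.enorm).pow_const 2
  have h3 := hC2 (fun z => ‖TP β η s G z‖ₑ ^ 2) η s 1 1 (Lo η s z) _ hmeas hs one_pos one_pos
    le_rfl h2
  have h4 : ∫⁻ z', ‖TF (fun ζ => cp β η s ζ * G ζ) z'‖ₑ ^ 2 *
      ENNReal.ofReal (wt (m + 3) (Lo η s z - Lo η s z')) ≤
      C2 * ENNReal.ofReal (Cb ^ 2 * (A ^ 2 * (R * s ^ 2) ^ m * (s⁻¹) ^ (m + 2))) := by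
    refine le_trans (le_of_eq ?_) (h3.trans (le_of_eq ?_))
    · refine lintegral_congr fun z' => ?_
      simp only [inv_one, one_smul]
      rw [wt_symm]
      rfl
    · simp
  have h5 : ‖TP β η s G z‖ₑ ^ 2 ≤ ENNReal.ofReal ((Real.sqrt (C1 * C2 * Cb ^ 2) * A *
      (R * s ^ 2) ^ ((m : ℝ) / 2)) ^ 2) := by
    refine (h1.trans (mul_le_mul_right h4 _)).trans (le_of_eq ?_)
    have h6 : ((R * s ^ 2) ^ ((m : ℝ) / 2)) ^ 2 = (R * s ^ 2) ^ m := by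
      rw [← Real.rpow_natCast ((R * s ^ 2) ^ ((m : ℝ) / 2)) 2, ← Real.rpow_mul hX,
        ← Real.rpow_natCast _ m]
      congr 1
      push_cast
      ring
    have h6' : (Real.sqrt (C1 * C2 * Cb ^ 2) * A * (R * s ^ 2) ^ ((m : ℝ) / 2)) ^ 2 =
        C1 * C2 * Cb ^ 2 * A ^ 2 * (R * s ^ 2) ^ m := by
      rw [mul_pow _ ((R * s ^ 2) ^ ((m : ℝ) / 2)), h6, mul_pow _ A,
        Real.sq_sqrt (by positivity)]
    rw [h6']
    rw [← ENNReal.ofReal_coe_nnreal (p := C1), ← ENNReal.ofReal_coe_nnreal (p := C2),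
      ← ENNReal.ofReal_mul (by positivity), ← ENNReal.ofReal_mul (by positivity),
      ← ENNReal.ofReal_mul (by positivity)]
    congr 1
    have h7 : s ^ (m + 2) * (s⁻¹) ^ (m + 2) = 1 := by
      rw [← mul_pow, mul_inv_cancel₀ hs.ne', one_pow]
    calc (C1 : ℝ) * s ^ (m + 2) * (C2 * (Cb ^ 2 * (A ^ 2 * (R * s ^ 2) ^ m * (s⁻¹) ^ (m + 2)))) =
          C1 * C2 * Cb ^ 2 * A ^ 2 * (R * s ^ 2) ^ m * (s ^ (m + 2) * (s⁻¹) ^ (m + 2)) := by ring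
      _ = _ := by rw [h7, mul_one]
  refine (sq_le_of_enorm (by positivity) h5).trans ?_
  gcongr
  linarith

theorem pf_SPK (hLCN : T_LCN) (hSCL : T_SCL) (hLOA : T_LOA) (hLOI : T_LOI) (hPUB : T_PUB)
    (hPUS : T_PUS) (_hPUX : T_PUX) (hAVG : T_AVG) (hCPS : T_CPS) (_hWT1 : T_WT1) : T_SPK := by
  intro m L β hβ
  obtain ⟨C, hC, hC'⟩ := sup_cap hLCN hSCL hLOA hLOI hPUB hAVG hCPS m L β hβ
  refine ⟨C * ((Ks m 1).card + 1), by positivity, ?_⟩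
  intro κ R A G hκ hκ' hR hA hG
  have hR0 : 0 < R := by linarith
  constructor
  · intro k z
    have hs : 0 < sR R := by unfold sR; positivity
    have hs1 : sR R ≤ 1 := by
      unfold sR
      exact inv_le_one_of_one_le₀ (Real.one_le_sqrt.2 hR)
    have hRs : R * sR R ^ 2 = 1 := by
      unfold sR
      rw [inv_pow, Real.sq_sqrt hR0.le, mul_inv_cancel₀ hR0.ne']
    have h := hC' κ R A G hκ hκ' hR hA hG (ctr (sR R) k) (sR R) hs hs1 hRs.ge z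
    rw [hRs, Real.one_rpow, mul_one] at h
    refine h.trans ?_
    have : C * 1 ≤ C * ((Ks m 1).card + 1 : ℝ) := by
      gcongr
      have : (0:ℝ) ≤ (Ks m 1).card := by positivity
      linarith
    nlinarith
  · intro z
    have h1 : G = fun ζ => ∑ k ∈ Ks m 1, cp β (ctr 1 k) 1 ζ * G ζ := by
      funext ζ
      rw [← Finset.sum_mul]
      by_cases hζ : G ζ = 0
      · rw [hζ, mul_zero]
      · obtain ⟨h2a, h2b, h2c, h2d⟩ := hG.2.1 ζ hζ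
        have ha0 : 0 < ζ.1 := by linarith
        rw [((hPUS m).1 β 1 hβ one_pos).2 le_rfl ζ, one_mul]
        rw [norm_smul, norm_inv, Real.norm_of_nonneg ha0.le, inv_mul_le_iff₀ ha0]
        nlinarith
    have hsup : ∀ ζ, G ζ ≠ 0 → 1 / 4 ≤ ζ.1 := fun ζ hζ => by
      have := (hG.2.1 ζ hζ).1
      linarith
    have h2 : TF G z = ∑ k ∈ Ks m 1, TP β (ctr 1 k) 1 G z := by
      conv_lhs => rw [h1]
      rw [TF_sum _ _ (fun k _ => hCPS m β (ctr 1 k) 1 G hβ.1 one_pos hG.1 hsup)]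
      rfl
    rw [h2]
    refine (norm_sum_le _ _).trans ?_
    have h3 : ∀ k ∈ Ks m 1, ‖TP β (ctr 1 k) 1 G z‖ ≤ C * A * R ^ ((m : ℝ) / 2) := by
      intro k _
      have h := hC' κ R A G hκ hκ' hR hA hG (ctr 1 k) 1 one_pos le_rfl (by simpa using hR) z
      simpa using h
    refine (Finset.sum_le_card_nsmul _ _ _ h3).trans ?_
    rw [nsmul_eq_mul]
    have h4 : 0 ≤ C * A * R ^ ((m : ℝ) / 2) := by positivity
    nlinarith

theorem pf_PTW (hLCN : T_LCN) (hSCL : T_SCL) (hLOA : T_LOA) (hLOI : T_LOI) (hCPS : T_CPS)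
    (hWT1 : T_WT1) (hSCH : T_SCH) (hPLN : T_PLN) : T_PTW := by
  intro m N N' β Ψ ψ δ hβ hψ hδ
  obtain ⟨C1, hC1⟩ := lc_cap hLCN hSCL hLOA hLOI m N 20
  obtain ⟨C2, hC2, hC2'⟩ := (hSCH m Ψ hψ.1).2 (N + N')
  refine ⟨Real.sqrt C1 * C2 + 1, by positivity, ?_⟩
  intro R G W z hR hTC hRg
  have hR0 : 0 < R := by linarith
  have hs : 0 < sR R := by unfold sR; positivity
  have hs1 : sR R ≤ 1 := by
    unfold sR
    exact inv_le_one_of_one_le₀ (Real.one_le_sqrt.2 hR)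
  have hRs : R * sR R ^ 2 = 1 := by
    unfold sR
    rw [inv_pow, Real.sq_sqrt hR0.le, mul_inv_cancel₀ hR0.ne']
  set s := sR R with hsdef
  set η := ctr s W.1 with hη
  have hsup : ∀ ζ, G ζ ≠ 0 → 1 / 4 ≤ ζ.1 := fun ζ hζ => by
    have := (hRg ζ hζ).1
    linarith
  have hf : TC (fun ζ => cp β η s ζ * G ζ) := hCPS m β η s G hβ.1 hs hTC hsup
  have h1 := hC1 (fun ζ => cp β η s ζ * G ζ) η s hs hf
    (supp_cap hLOA hβ.2.1 (by norm_num) le_rfl hR0 hRg η hs hRs.ge) z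
  obtain ⟨hW0, -, hWadd, hWmono, hWM, hWmul, -⟩ := hWT1 m N
  have hW0' := (hWT1 m N').1
  -- coordinates
  have hfc : ∀ u : Z m, fc R δ W.1 u = R ^ (-δ) • Lo η s u := fun u => rfl
  have hRd : R ^ (-δ) ≤ 1 := Real.rpow_le_one_of_one_le_of_nonpos hR (by linarith)
  have hRd0 : 0 < R ^ (-δ) := Real.rpow_pos_of_pos hR0 _
  set x : Z m := fc R δ W.1 z - zc W.2 with hx
  have h2 : ∀ z' : Z m, wt N (Lo η s z - Lo η s z') * wt N x ≤ wt N (fc R δ W.1 z' - zc W.2) := by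
    intro z'
    have h3 : wt N (Lo η s z - Lo η s z') ≤ wt N (fc R δ W.1 z' - fc R δ W.1 z) := by
      refine hWmono _ _ ?_
      rw [hfc, hfc, ← smul_sub, norm_smul, Real.norm_of_nonneg hRd0.le, norm_sub_rev]
      nlinarith [norm_nonneg (Lo η s z - Lo η s z')]
    calc wt N (Lo η s z - Lo η s z') * wt N x ≤ wt N (fc R δ W.1 z' - fc R δ W.1 z) * wt N x :=
          mul_le_mul_of_nonneg_right h3 (hW0 x).1.le
      _ ≤ wt N ((fc R δ W.1 z' - fc R δ W.1 z) + x) := hWadd _ _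
      _ = _ := by
          congr 1
          rw [hx]
          abel
  set J : ℝ≥0∞ := ∫⁻ z', ‖TP β η s G z'‖ₑ ^ 2 * ENNReal.ofReal (wt N (fc R δ W.1 z' - zc W.2))
    with hJ
  have h4 : ‖TP β η s G z‖ₑ ^ 2 * ENNReal.ofReal (wt N x) ≤
      C1 * ENNReal.ofReal (s ^ (m + 2)) * J := by
    calc ‖TP β η s G z‖ₑ ^ 2 * ENNReal.ofReal (wt N x) ≤ (C1 * ENNReal.ofReal (s ^ (m + 2)) *
          ∫⁻ z', ‖TF (fun ζ => cp β η s ζ * G ζ) z'‖ₑ ^ 2 *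
            ENNReal.ofReal (wt N (Lo η s z - Lo η s z'))) * ENNReal.ofReal (wt N x) :=
          mul_le_mul_left h1 _
      _ = C1 * ENNReal.ofReal (s ^ (m + 2)) *
          ∫⁻ z', ‖TF (fun ζ => cp β η s ζ * G ζ) z'‖ₑ ^ 2 *
            ENNReal.ofReal (wt N (Lo η s z - Lo η s z')) * ENNReal.ofReal (wt N x) := by
          rw [lintegral_mul_const' _ _ ENNReal.ofReal_ne_top, mul_assoc]
      _ ≤ _ := by
          refine mul_le_mul_right (lintegral_mono fun z' => ?_) _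
          simp only
          rw [mul_assoc, ← ENNReal.ofReal_mul (hW0 _).1.le]
          exact mul_le_mul_right (ENNReal.ofReal_le_ofReal (h2 z')) _
  have hal : al2 N β R δ G W = ENNReal.ofReal (R ^ (-(δ * ((m : ℝ) + 2))) * s ^ (m + 2)) * J :=
    rfl
  have hJfin : J ≠ ∞ := by
    have h5 : J ≤ ∫⁻ z', ‖TP β η s G z'‖ₑ ^ 2 := by
      refine lintegral_mono fun z' => ?_
      calc ‖TP β η s G z'‖ₑ ^ 2 * ENNReal.ofReal (wt N (fc R δ W.1 z' - zc W.2)) ≤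
            ‖TP β η s G z'‖ₑ ^ 2 * 1 := by
            refine mul_le_mul_right ?_ _
            rw [← ENNReal.ofReal_one]
            exact ENNReal.ofReal_le_ofReal (hW0 _).2
        _ = _ := mul_one _
    have h6 := (hPLN m _ hf).1
    refine ne_top_of_le_ne_top ?_ h5
    unfold TP
    rw [h6]
    exact ENNReal.ofReal_ne_top
  have halfin : al2 N β R δ G W ≠ ∞ := by
    rw [hal]
    exact ENNReal.mul_ne_top ENNReal.ofReal_ne_top hJfin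
  have halsq : ENNReal.ofReal (al N β R δ G W ^ 2) = al2 N β R δ G W := by
    unfold al
    rw [Real.sq_sqrt ENNReal.toReal_nonneg, ENNReal.ofReal_toReal halfin]
  have hal0 : 0 ≤ al N β R δ G W := Real.sqrt_nonneg _
  have h7 : ENNReal.ofReal (s ^ (m + 2)) * J =
      ENNReal.ofReal (R ^ (δ * ((m : ℝ) + 2)) * al N β R δ G W ^ 2) := by
    rw [ENNReal.ofReal_mul (by positivity), halsq, hal, ← mul_assoc,
      ← ENNReal.ofReal_mul (by positivity), ← mul_assoc, ← Real.rpow_add hR0, add_neg_cancel,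
      Real.rpow_zero, one_mul]
  -- real form
  have h8 : ‖TP β η s G z‖ ^ 2 * wt N x ≤ C1 * (R ^ (δ * ((m : ℝ) + 2)) * al N β R δ G W ^ 2) := by
    rw [mul_assoc, h7, ← ofReal_norm, ← ENNReal.ofReal_pow (norm_nonneg _),
      ← ENNReal.ofReal_mul (by positivity), ← ENNReal.ofReal_coe_nnreal (p := C1),
      ← ENNReal.ofReal_mul (by positivity), ENNReal.ofReal_le_ofReal_iff (by positivity)] at h4
    exact h4
  have h9 : ‖(ψ x : ℂ)‖ ^ 2 ≤ C2 ^ 2 * (wt N x * wt N' x ^ 2) := by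
    rw [hψ.2.2.1 x]
    have h10 := hC2' x
    have h11 : wt (N + N') x = wt N x * wt N' x := hWmul x N'
    calc ‖TF Ψ x‖ ^ 2 ≤ (C2 * wt (N + N') x) ^ 2 := by gcongr
      _ = C2 ^ 2 * (wt N x * (wt N x * wt N' x ^ 2)) := by rw [h11]; ring
      _ ≤ C2 ^ 2 * (1 * (wt N x * wt N' x ^ 2)) := by
          have := (hW0 x).1
          have := (hW0 x).2
          have := (hW0' x).1
          gcongr
      _ = _ := by ring
  have h12 : ‖Fp β ψ R δ G W z‖ ^ 2 ≤ (Real.sqrt C1 * C2 * R ^ (δ * ((m : ℝ) + 2) / 2) *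
      al N β R δ G W * wt N' x) ^ 2 := by
    have h13 : Fp β ψ R δ G W z = TP β η s G z * (ψ x : ℂ) := rfl
    have h14 : (R ^ (δ * ((m : ℝ) + 2) / 2)) ^ 2 = R ^ (δ * ((m : ℝ) + 2)) := by
      rw [← Real.rpow_natCast (R ^ (δ * ((m : ℝ) + 2) / 2)) 2, ← Real.rpow_mul hR0.le]
      congr 1
      push_cast
      ring
    rw [h13, norm_mul, mul_pow]
    calc ‖TP β η s G z‖ ^ 2 * ‖(ψ x : ℂ)‖ ^ 2 ≤
          ‖TP β η s G z‖ ^ 2 * (C2 ^ 2 * (wt N x * wt N' x ^ 2)) := by gcongr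
      _ = (‖TP β η s G z‖ ^ 2 * wt N x) * (C2 ^ 2 * wt N' x ^ 2) := by ring
      _ ≤ (C1 * (R ^ (δ * ((m : ℝ) + 2)) * al N β R δ G W ^ 2)) * (C2 ^ 2 * wt N' x ^ 2) := by
          gcongr
      _ = _ := by
          rw [mul_pow, mul_pow, mul_pow, mul_pow, h14, Real.sq_sqrt (by positivity)]
          ring
  have h15 : 0 ≤ R ^ (δ * ((m : ℝ) + 2) / 2) := by positivity
  have h16 := (hW0' x).1
  have h17 := abs_le_of_sq_le_sq h12 (by positivity)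
  have h18 : ‖Fp β ψ R δ G W z‖ ≤ Real.sqrt C1 * C2 * R ^ (δ * ((m : ℝ) + 2) / 2) *
      al N β R δ G W * wt N' x := (le_abs_self _).trans h17
  refine h18.trans ?_
  have h19 : 0 ≤ R ^ (δ * ((m : ℝ) + 2) / 2) * al N β R δ G W * wt N' x := by positivity
  nlinarith

end Pool.Agent.H64.G
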