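import Pool.Agent.H83.G.Targets1

/-!
Theorem G (MP_ee74d2_an): modules KSP and SPW.
-/

set_option autoImplicit false

namespace Pool.Agent.H64.G

open MeasureTheory Set Pool.Agent.H83.G
open scoped ENNReal NNReal RealInnerProductSpace

theorem pf_KSP (hKER : T_KER) (hWT2 : T_WT2) : T_KSP := by
  intro m L hL
  obtain ⟨C, hC⟩ := hKER m L
  obtain ⟨C', -, -, hC'⟩ := hWT2 m L hL
  refine ⟨C * C' + 1, by positivity, ?_⟩
  intro φ hφ η s B G hs hG hsupp hB z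
  have hB0 : 0 ≤ B := (norm_nonneg _).trans (hB z)
  have h1 : ‖TP φ η s G z‖ₑ ≤ C * (C' * ENNReal.ofReal B) := by
    refine (hC φ hφ η s G hs hG hsupp z).trans ?_
    refine mul_le_mul_right ?_ _
    calc ∫⁻ u : ℝ × E m, ENNReal.ofReal (((1 + ‖u‖) ^ L)⁻¹) *
          ‖TF G (z - (u.1 - s⁻¹ * ⟪u.2, η⟫, s⁻¹ • u.2, 0))‖ₑ ≤
          ∫⁻ u : ℝ × E m, ENNReal.ofReal (((1 + ‖u‖) ^ L)⁻¹) * ENNReal.ofReal B := by
          refine lintegral_mono fun u => mul_le_mul_right ?_ _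
          rw [← ofReal_norm_eq_enorm]
          exact ENNReal.ofReal_le_ofReal (hB _)
      _ = (∫⁻ u : ℝ × E m, ENNReal.ofReal (((1 + ‖u‖) ^ L)⁻¹)) * ENNReal.ofReal B :=
          lintegral_mul_const' _ _ ENNReal.ofReal_ne_top
      _ ≤ C' * ENNReal.ofReal B := mul_le_mul_left hC' _
  have h2 : (C : ℝ≥0∞) * (C' * ENNReal.ofReal B) = ENNReal.ofReal (C * C' * B) := by
    rw [ENNReal.ofReal_mul (by positivity), ENNReal.ofReal_mul (by positivity),
      ENNReal.ofReal_coe_nnreal, ENNReal.ofReal_coe_nnreal, mul_assoc]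
  rw [h2, ← ofReal_norm_eq_enorm, ENNReal.ofReal_le_ofReal_iff (by positivity)] at h1
  refine h1.trans ?_
  nlinarith

theorem sum_lintegral_le {α ι : Type} [MeasurableSpace α] (μ : Measure α) (s : Finset ι)
    (f : ι → α → ℝ≥0∞) : ∑ i ∈ s, ∫⁻ a, f i a ∂μ ≤ ∫⁻ a, ∑ i ∈ s, f i a ∂μ := by
  classical
  induction s using Finset.induction_on with
  | empty => simp
  | insert i s hi ih =>
    simp only [Finset.sum_insert hi]
    exact (add_le_add_right ih _).trans (le_lintegral_add _ _)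

theorem pf_SPW (hLCN : T_LCN) (_hWT1 : T_WT1) (hWT3 : T_WT3) : T_SPW := by
  intro m N₁ D P C₁ hP hC₁
  obtain ⟨C, hC⟩ := hLCN m (N₁ + (m + 3)) D P hP
  obtain ⟨C3, -, -, -, hC3, -⟩ := hWT3 m (m + 3) le_rfl
  refine ⟨C * C₁.toNNReal * C3, ?_⟩
  intro G X ω hG hD hX hω hslow
  have hw : ∀ x : Z m, wt (N₁ + (m + 3)) x * (C₁ * (1 + ‖x‖) ^ N₁) = C₁ * wt (m + 3) x := by
    intro x
    unfold wt
    have h0 : (1 + ‖x‖ : ℝ) ≠ 0 := by positivity
    rw [pow_add]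
    field_simp
  have h1 : ∀ z ∈ X, ‖TF G z‖ₑ ^ P * ω z ≤ C * ENNReal.ofReal C₁ *
      ∫⁻ z', ‖TF G z'‖ₑ ^ P * ω z' * ENNReal.ofReal (wt (m + 3) (z - z')) := by
    intro z _
    calc ‖TF G z‖ₑ ^ P * ω z ≤ (C * ∫⁻ z', ‖TF G z'‖ₑ ^ P *
          ENNReal.ofReal (wt (N₁ + (m + 3)) (z - z'))) * ω z := mul_le_mul_left (hC G hG hD z) _
      _ = C * ((∫⁻ z', ‖TF G z'‖ₑ ^ P *
          ENNReal.ofReal (wt (N₁ + (m + 3)) (z - z'))) * ω z) := mul_assoc _ _ _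
      _ ≤ C * ∫⁻ z', ‖TF G z'‖ₑ ^ P *
          ENNReal.ofReal (wt (N₁ + (m + 3)) (z - z')) * ω z :=
          mul_le_mul_right (lintegral_mul_const_le _ _) _
      _ ≤ C * ∫⁻ z', ENNReal.ofReal C₁ * (‖TF G z'‖ₑ ^ P * ω z' *
          ENNReal.ofReal (wt (m + 3) (z - z'))) := by
          refine mul_le_mul_right (lintegral_mono fun z' => ?_) _
          calc ‖TF G z'‖ₑ ^ P * ENNReal.ofReal (wt (N₁ + (m + 3)) (z - z')) * ω z ≤
                ‖TF G z'‖ₑ ^ P * ENNReal.ofReal (wt (N₁ + (m + 3)) (z - z')) *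
                  (ENNReal.ofReal (C₁ * (1 + ‖z - z'‖) ^ N₁) * ω z') :=
                mul_le_mul_right (hslow z z') _
            _ = ‖TF G z'‖ₑ ^ P * ω z' * (ENNReal.ofReal (wt (N₁ + (m + 3)) (z - z')) *
                  ENNReal.ofReal (C₁ * (1 + ‖z - z'‖) ^ N₁)) := by ring
            _ = ‖TF G z'‖ₑ ^ P * ω z' * (ENNReal.ofReal C₁ *
                  ENNReal.ofReal (wt (m + 3) (z - z'))) := by
                have h0 : 0 ≤ wt (N₁ + (m + 3)) (z - z') := by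
                  unfold wt
                  positivity
                rw [← ENNReal.ofReal_mul h0, hw, ENNReal.ofReal_mul hC₁]
            _ ≤ _ := le_of_eq (by ring)
      _ = C * (ENNReal.ofReal C₁ * ∫⁻ z', ‖TF G z'‖ₑ ^ P * ω z' *
          ENNReal.ofReal (wt (m + 3) (z - z'))) := by
          rw [lintegral_const_mul' _ _ ENNReal.ofReal_ne_top]
      _ = _ := (mul_assoc _ _ _).symm
  calc ∑ z ∈ X, ‖TF G z‖ₑ ^ P * ω z ≤ ∑ z ∈ X, C * ENNReal.ofReal C₁ *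
        ∫⁻ z', ‖TF G z'‖ₑ ^ P * ω z' * ENNReal.ofReal (wt (m + 3) (z - z')) :=
        Finset.sum_le_sum h1
    _ = C * ENNReal.ofReal C₁ * ∑ z ∈ X,
        ∫⁻ z', ‖TF G z'‖ₑ ^ P * ω z' * ENNReal.ofReal (wt (m + 3) (z - z')) := by
        rw [Finset.mul_sum]
    _ ≤ C * ENNReal.ofReal C₁ * ∫⁻ z', ∑ z ∈ X,
        ‖TF G z'‖ₑ ^ P * ω z' * ENNReal.ofReal (wt (m + 3) (z - z')) :=
        mul_le_mul_right (sum_lintegral_le _ _ _) _
    _ ≤ C * ENNReal.ofReal C₁ * ∫⁻ z', ‖TF G z'‖ₑ ^ P * ω z' * C3 := by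
        refine mul_le_mul_right (lintegral_mono fun z' => ?_) _
        simp only
        rw [← Finset.mul_sum]
        exact mul_le_mul_right (hC3 X z' hX) _
    _ = C * ENNReal.ofReal C₁ * ((∫⁻ z', ‖TF G z'‖ₑ ^ P * ω z') * C3) := by
        rw [lintegral_mul_const' _ _ ENNReal.coe_ne_top]
    _ = _ := by
        push_cast
        rw [ENNReal.ofReal]
        ring

end Pool.Agent.H64.G
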